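import Mathlib
import Pool.Agent.WIR.StmtsB

/-!
# Squad WIR, row MON (helper27): monotonicity, linearity, mass and support of the two operators.
-/

set_option autoImplicit false

namespace Pool.Agent.WIR.H27

open Pool.Agent.WIR

theorem massG (l n : ℕ) :
    ∑ x ∈ Finset.Icc (l + 1) (l + n), (1 / 2 : ℝ) ^ (x - l) = 1 - (1 / 2 : ℝ) ^ n := by
  induction n with
  | zero => simp
  | succ n ih =>
    rw [← add_assoc, Finset.sum_Icc_succ_top (by omega), ih]
    have e : l + n + 1 - l = n + 1 := by omega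
    rw [e, pow_succ]
    ring

theorem massK (l n : ℕ) :
    ∑ x ∈ Finset.Icc (l + 2) (l + n), ((x - l - 1 : ℕ) : ℝ) * (1 / 2 : ℝ) ^ (x - l) =
      1 - ((n : ℝ) + 1) * (1 / 2 : ℝ) ^ n := by
  induction n with
  | zero => simp
  | succ n ih =>
    rcases Nat.eq_zero_or_pos n with rfl | hn
    · norm_num
    · rw [← add_assoc, Finset.sum_Icc_succ_top (by omega), ih]
      have e : l + n + 1 - l = n + 1 := by omega
      have e' : l + n + 1 - l - 1 = n := by omega
      rw [e', e, pow_succ]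
      push_cast
      ring

theorem massG_le (B l : ℕ) : ∑ x ∈ Finset.Icc (l + 1) B, (1 / 2 : ℝ) ^ (x - l) ≤ 1 := by
  rcases le_or_gt B l with h | h
  · rw [Finset.Icc_eq_empty (by omega)]
    simp
  · obtain ⟨n, rfl⟩ := Nat.exists_eq_add_of_le h.le
    rw [massG]
    have : (0 : ℝ) ≤ (1 / 2 : ℝ) ^ n := by positivity
    linarith

theorem massK_le (B l : ℕ) :
    ∑ x ∈ Finset.Icc (l + 2) B, ((x - l - 1 : ℕ) : ℝ) * (1 / 2 : ℝ) ^ (x - l) ≤ 1 := by
  rcases le_or_gt B l with h | h
  · rw [Finset.Icc_eq_empty (by omega)]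
    simp
  · obtain ⟨n, rfl⟩ := Nat.exists_eq_add_of_le h.le
    rw [massK]
    have : (0 : ℝ) ≤ ((n : ℝ) + 1) * (1 / 2 : ℝ) ^ n := by positivity
    linarith

theorem mon : MonStmt := by
  refine ⟨?_, ?_, ?_, ?_⟩
  · intro B f g l h
    refine ⟨Finset.sum_le_sum fun x hx => ?_, Finset.sum_le_sum fun x hx => ?_⟩
    · rw [Finset.mem_Icc] at hx
      exact mul_le_mul_of_nonneg_left (h x (by omega) hx.2) (by positivity)
    · rw [Finset.mem_Icc] at hx
      exact mul_le_mul_of_nonneg_left (h x (by omega) hx.2) (by positivity)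
  · intro B f g c l
    unfold Gh Kh
    refine ⟨?_, ?_⟩
    · rw [Finset.mul_sum, ← Finset.sum_add_distrib]
      exact Finset.sum_congr rfl fun x _ => by ring
    · rw [Finset.mul_sum, ← Finset.sum_add_distrib]
      exact Finset.sum_congr rfl fun x _ => by ring
  · intro B c l hc
    unfold Gh Kh
    refine ⟨?_, ?_⟩
    · rw [← Finset.sum_mul]
      exact mul_le_of_le_one_left hc (massG_le B l)
    · rw [← Finset.sum_mul]
      exact mul_le_of_le_one_left hc (massK_le B l)
  · intro B f l h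
    unfold Gh Kh
    rw [Finset.Icc_eq_empty (by omega), Finset.Icc_eq_empty (by omega)]
    exact ⟨Finset.sum_empty, Finset.sum_empty⟩

end Pool.Agent.WIR.H27
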