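import Mathlib
import Pool.Agent.WIR.StmtsA

/-!
# Squad WIR, row TXM (helper27): exact multiplication of centred residues.
-/

set_option autoImplicit false

namespace Pool.Agent.WIR.H27

open Pool.Agent.WIR

theorem txm_two (N : ℕ) (y : ZMod (3 ^ N)) (z : ℤ) (hz : 2 * |z| < 3 ^ N)
    (hy : y = (z : ZMod (3 ^ N))) : y.valMinAbs = z := by
  rw [ZMod.valMinAbs_spec]
  refine ⟨hy, ?_⟩
  have h1 := neg_abs_le z
  have h2 := le_abs_self z
  rw [Set.mem_Ioc]
  push_cast
  constructor <;> linarith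

theorem txm : TxmStmt := by
  refine ⟨fun N c y h => ?_, txm_two⟩
  refine txm_two N _ _ ?_ ?_
  · rw [abs_mul, Nat.abs_cast, ← mul_assoc]
    exact h
  · rw [Int.cast_mul, Int.cast_natCast, ZMod.coe_valMinAbs]

end Pool.Agent.WIR.H27
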